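import Pool.Agent.Lib_helper39.TWQ.Prm

/-!
# Two Diophantine properties: the primes which divide `n₁ - n₂` exactly once

If four distinct non-zero integers have the properties `D(n)` and `D(n + N)`, `N > 0`, and the prime
`p` divides `N = p m` exactly once, then `p ≤ 3 m ^ 2`; for every `m` at most `3 d(m) ^ 6` primes `p`
not dividing `m` make `p m` such a difference.
-/

set_option autoImplicit false

namespace Pool.Agent.Results.MP_df6280_nt.ExactPrimes

/-- `a 0, …, a (k - 1)` are distinct non-zero integers which form a `D(n)`-`k`-tuple. -/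
def IsTuple {k : ℕ} (a : Fin k → ℤ) (n : ℤ) : Prop :=
  Function.Injective a ∧ (∀ i, a i ≠ 0) ∧ ∀ i j, i ≠ j → IsSquare (a i * a j + n)

/-- `N` is a difference: for some integer `n` there are four distinct non-zero integers which are
at the same time a `D(n)`-quadruple and a `D(n + N)`-quadruple. -/
def IsDifference (N : ℕ) : Prop :=
  ∃ (a : Fin 4 → ℤ) (n : ℤ), IsTuple a n ∧ IsTuple a (n + N)

theorem result :
    (∀ p m : ℕ, p.Prime → ¬ p ∣ m → IsDifference (p * m) → p ≤ 3 * m ^ 2) ∧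
    (∀ m : ℕ, {p : ℕ | p.Prime ∧ ¬ p ∣ m ∧ IsDifference (p * m)}.ncard ≤ 3 * m.divisors.card ^ 6) := by
  classical
  have two : ∀ (a : Fin 4 → ℤ) (n₁ n₂ : ℤ), IsTuple a n₁ → IsTuple a n₂ → TWP.Two a n₁ n₂ :=
    fun a n₁ n₂ h1 h2 => ⟨h1.1, h1.2.1, fun i j hij => ⟨h1.2.2 i j hij, h2.2.2 i j hij⟩⟩
  refine ⟨?_, fun m => ?_⟩
  · rintro p m h1 h2 ⟨a, n, h3, h4⟩
    exact TWQ.prime_le (two a _ _ h4 h3) h1 h2 (by push_cast; ring)
  · have hA : ∀ S : Finset ℕ, (∀ p ∈ S, p.Prime ∧ ¬ p ∣ m ∧ IsDifference (p * m)) →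
        S.card ≤ 3 * m.divisors.card ^ 6 := by
      intro S hS
      refine TWP.card_primes m S fun p hp => ?_
      obtain ⟨h1, h2, a, n, h3, h4⟩ := hS p hp
      exact ⟨h1, h2, a, n + ((p * m : ℕ) : ℤ), n, two a _ _ h4 h3, by push_cast; ring⟩
    have hfin : {p : ℕ | p.Prime ∧ ¬ p ∣ m ∧ IsDifference (p * m)}.Finite := by
      by_contra hinf
      obtain ⟨S, hS, hcard⟩ := (Set.not_finite.1 hinf : Set.Infinite _).exists_subset_card_eq
        (3 * m.divisors.card ^ 6 + 1)
      have := hA S fun p hp => hS hp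
      omega
    rw [Set.ncard_eq_toFinset_card _ hfin]
    exact hA hfin.toFinset fun p hp => hfin.mem_toFinset.1 hp

end Pool.Agent.Results.MP_df6280_nt.ExactPrimes
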