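import Pool.Agent.Lib_helper39.TWR.Dbl

/-!
# Tuples with two Diophantine properties are rare: a power saving

Let `k ≥ 4`. The number of all `(a, n₁, n₂)` such that the `k` distinct non-zero integers `a i` form
a `D(n₁)`-`k`-tuple and a `D(n₂)`-`k`-tuple and `0 < n₂ - n₁ ≤ X` is `O(X ^ (15 / 16 + ε))` for every
`ε > 0`. The same bound holds for the number of the differences `n₂ - n₁ ≤ X` of quadruples, which
is at least about `√(X / 720)`.
-/

set_option autoImplicit false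

namespace Pool.Agent.Results.MP_df6280_nt.PowerSaving

/-- `a 0, …, a (k - 1)` are distinct non-zero integers which form a `D(n)`-`k`-tuple. -/
def IsTuple {k : ℕ} (a : Fin k → ℤ) (n : ℤ) : Prop :=
  Function.Injective a ∧ (∀ i, a i ≠ 0) ∧ ∀ i j, i ≠ j → IsSquare (a i * a j + n)

/-- All `(a, n₁, n₂)` for which `a` is at the same time a `D(n₁)`-`k`-tuple and a `D(n₂)`-`k`-tuple
and `0 < n₂ - n₁ ≤ X`. -/
def Doubles (k X : ℕ) : Set ((Fin k → ℤ) × ℤ × ℤ) :=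
  {t | IsTuple t.1 t.2.1 ∧ IsTuple t.1 t.2.2 ∧ t.2.1 < t.2.2 ∧ t.2.2 ≤ t.2.1 + X}

/-- `N` is a difference: for some integer `n` there are four distinct non-zero integers which are
at the same time a `D(n)`-quadruple and a `D(n + N)`-quadruple. -/
def IsDifference (N : ℕ) : Prop :=
  ∃ (a : Fin 4 → ℤ) (n : ℤ), IsTuple a n ∧ IsTuple a (n + N)

/-- `720 u ^ 2` is a difference -/
theorem isDifference_scaled {u : ℕ} (hu : 0 < u) : IsDifference (720 * u ^ 2) := by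
  have hu0 : (u : ℤ) ≠ 0 := by exact_mod_cast hu.ne'
  have hinj : Function.Injective fun i : Fin 4 => (![-1, 7, 64, 119] : Fin 4 → ℤ) i * u := by
    intro i j hij
    have h1 := mul_right_cancel₀ hu0 hij
    revert h1
    fin_cases i <;> fin_cases j <;> simp
  have hne : ∀ i : Fin 4, (![-1, 7, 64, 119] : Fin 4 → ℤ) i * u ≠ 0 := by
    intro i
    refine mul_ne_zero ?_ hu0
    fin_cases i <;> simp
  let A : Fin 4 → ℤ := ![-1, 7, 64, 119]
  let S : Fin 4 → Fin 4 → ℤ := ![![0, 11, 8, 3], ![11, 0, 24, 31], ![8, 24, 0, 88], ![3, 31, 88, 0]]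
  let T : Fin 4 → Fin 4 → ℤ := ![![0, 29, 28, 27], ![29, 0, 36, 41], ![28, 36, 0, 92], ![27, 41, 92, 0]]
  have h128 : ∀ i j : Fin 4, i ≠ j → A i * A j + 128 = S i j ^ 2 := by decide
  have h848 : ∀ i j : Fin 4, i ≠ j → A i * A j + 848 = T i j ^ 2 := by decide
  refine ⟨fun i => A i * u, 128 * (u : ℤ) ^ 2,
    ⟨hinj, hne, fun i j hij => ⟨S i j * u, ?_⟩⟩, ⟨hinj, hne, fun i j hij => ⟨T i j * u, ?_⟩⟩⟩
  · linear_combination (u : ℤ) ^ 2 * h128 i j hij
  · push_cast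
    linear_combination (u : ℤ) ^ 2 * h848 i j hij

theorem result :
    (∀ k : ℕ, 4 ≤ k → ∀ ε : ℝ, 0 < ε → ∃ C : ℝ, ∀ X : ℕ, 1 ≤ X →
      (Doubles k X).Finite ∧ ((Doubles k X).ncard : ℝ) ≤ C * (X : ℝ) ^ (15 / 16 + ε)) ∧
    (∀ ε : ℝ, 0 < ε → ∃ C : ℝ, ∀ X : ℕ, 1 ≤ X →
      ({N : ℕ | 1 ≤ N ∧ N ≤ X ∧ IsDifference N}.ncard : ℝ) ≤ C * (X : ℝ) ^ (15 / 16 + ε)) ∧
    (∀ X : ℕ, Nat.sqrt (X / 720) ≤ {N : ℕ | 1 ≤ N ∧ N ≤ X ∧ IsDifference N}.ncard) := by
  classical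
  have hset : ∀ X : ℕ, {N : ℕ | 1 ≤ N ∧ N ≤ X ∧ IsDifference N} =
      (((Finset.Ioc 0 X).filter fun N => TWQ.Dif N : Finset ℕ) : Set ℕ) := by
    intro X
    ext N
    simp only [Finset.coe_filter, Finset.mem_Ioc, Set.mem_ofPred_eq]
    constructor
    · rintro ⟨h1, h2, h3⟩; exact ⟨⟨h1, h2⟩, h3⟩
    · rintro ⟨⟨h1, h2⟩, h3⟩; exact ⟨h1, h2, h3⟩
  refine ⟨fun k hk ε hε => TWR.dbl_of_dif TWR.dif_count16 hk ε hε, fun ε hε => ?_, fun X => ?_⟩
  · obtain ⟨C, -, hC⟩ := TWR.dif_count16 ε hε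
    refine ⟨C, fun X hX => ?_⟩
    rw [hset, Set.ncard_coe_finset]
    exact hC X hX
  · rw [hset, Set.ncard_coe_finset]
    have hinj : Set.InjOn (fun u : ℕ => 720 * u ^ 2) (Finset.Ioc 0 (Nat.sqrt (X / 720)) : Set ℕ) := by
      intro u _ v _ huv
      have h1 : u ^ 2 = v ^ 2 := Nat.eq_of_mul_eq_mul_left (by norm_num) huv
      exact Nat.pow_left_injective (n := 2) (by norm_num) h1
    calc Nat.sqrt (X / 720) = (Finset.Ioc 0 (Nat.sqrt (X / 720))).card := by simp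
      _ = ((Finset.Ioc 0 (Nat.sqrt (X / 720))).image fun u : ℕ => 720 * u ^ 2).card :=
          (Finset.card_image_of_injOn hinj).symm
      _ ≤ _ := by
          refine Finset.card_le_card fun N hN => ?_
          obtain ⟨u, hu, rfl⟩ := Finset.mem_image.1 hN
          rw [Finset.mem_Ioc] at hu
          have hu1 := hu.1
          refine Finset.mem_filter.2 ⟨Finset.mem_Ioc.2 ⟨by positivity, ?_⟩, isDifference_scaled hu1⟩
          have h1 : u * u ≤ X / 720 := Nat.le_sqrt.1 hu.2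
          have h2 := (Nat.le_div_iff_mul_le (by norm_num : 0 < 720)).1 h1
          nlinarith

end Pool.Agent.Results.MP_df6280_nt.PowerSaving
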